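import Pool.Agent.L0h49.E.B7

/-!
# Unique factorisation and real quadratic fields `ℚ(√d)`, `d ≡ 2, 3 mod 4`, with a unit below `d · 10⁸`

Let `d` be squarefree, `d ≡ 2` or `3` modulo `4`, so that the ring of integers of `ℚ(√d)` is
`ℤ[√d]`.  If this ring is a unique factorisation domain and the Pell equation
`T ^ 2 - d * U ^ 2 = 1` has a solution with `1 < T < 10 ^ 8 * d`, then `d` is one of one hundred
explicit numbers, the largest of which is `3947`.

The bound on the unit is linear in `d` with a large constant.  (If the ring is a unique
factorisation domain and `d > 2` then the prime above `2` is generated by an element `a + b √d`, so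
the units are never small: the least solution has `T ≥ d * b ^ 2 - 1`.  The theorem treats all
`b ≤ 10 ^ 4`, that is all discriminants `4 d` for which `a ^ 2 - d * b ^ 2 = ± 2` has a solution
with `b ≤ 10 ^ 4`.)

The method is that of Biró.  For odd characters of conductor prime to `4 d` the value at `0` of the
zeta function of the principal class is computed in two ways.  The library for palindromic
periods and the tables of character sums are those of the files `Pool/Agent/N911`,
`Pool/Agent/H419R2` and `Pool/Agent/N156/EP`.
-/

namespace Pool.Agent.Results.MP_321647_nt.EvenDiscSmallUnit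

theorem result (d : ℕ) (hd : Squarefree d) (hd4 : d % 4 = 2 ∨ d % 4 = 3)
    (K : Type*) [Field K] [NumberField K] (hK : Module.finrank ℚ K = 2)
    (x : K) (hx : x ^ 2 = (d : K))
    (hufd : UniqueFactorizationMonoid (NumberField.RingOfIntegers K))
    (T U : ℕ) (hT1 : 1 < T) (hTU : T ^ 2 = d * U ^ 2 + 1) (hT : T < 10 ^ 8 * d) :
    d ∈ ({2, 3, 6, 7, 11, 14, 19, 22, 23, 31, 38, 43, 46, 47, 59, 62, 67, 71, 83, 86, 94, 103, 107,
      118, 127, 131, 134, 139, 151, 158, 163, 166, 167, 179, 191, 199, 206, 227, 239, 251, 262,
      263, 278, 283, 302, 307, 311, 347, 367, 383, 398, 419, 422, 431, 446, 467, 479, 502, 503,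
      542, 563, 566, 587, 622, 647, 662, 683, 734, 743, 758, 787, 827, 838, 863, 878, 887, 947,
      983, 998, 1142, 1151, 1163, 1187, 1238, 1262, 1286, 1307, 1319, 1382, 1427, 1487, 1502,
      1718, 1931, 2063, 2078, 2243, 2351, 3167, 3947} : Finset ℕ) := by
  have hcl : NumberField.classNumber K = 1 := by
    rw [NumberField.classNumber_eq_one_iff]
    exact IsPrincipalIdealRing.of_isDedekindDomain_of_uniqueFactorizationMonoid _
  have hU : 0 < U := by
    rcases Nat.eq_zero_or_pos U with h | h
    · exfalso
      rw [h] at hTU
      have : 2 ^ 2 ≤ T ^ 2 := Nat.pow_le_pow_left hT1 2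
      omega
    · exact h
  have h := Pool.Agent.L0h49.E.unit_final (z := x) (Int.squarefree_natCast.mpr hd) hd4 hK
    (by rw [hx]; push_cast; rfl) hcl hU hTU hT
  unfold Pool.Agent.L0h49.E.LH at h
  simp only [List.mem_cons, List.not_mem_nil, or_false] at h
  simp only [Finset.mem_insert, Finset.mem_singleton]
  exact h

end Pool.Agent.Results.MP_321647_nt.EvenDiscSmallUnit
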