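import Pool.Agent.L0h75.GN.Fin
import Pool.Agent.L0h75.GN.Od

set_option autoImplicit false

/-!
# The primes up to `(log d)^a` generate all squares of the class group, outside a very sparse set

Let `a ≥ 16` and `ε > 0`.  For all but `O(X^(40/a+ε))` of the squarefree `d ≤ X` the following holds,
where `K = ℚ(√d)` and `Gen` is the subgroup of the class group of `K` generated by the classes of the
prime ideals of norm at most `(log d)^a`:

* the square of every ideal class lies in `Gen`;
* if `d` is a prime, or if the class number is odd, then `Gen` is the whole class group, and the ring of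
  integers of `K` has unique factorisation if and only if all prime ideals of norm at most `(log d)^a`
  are principal.

So under no hypothesis, and for all but `O(X^(40/a+ε))` of the primes `p ≤ X`, unique factorisation in
`ℚ(√p)` is decided by the prime ideals of norm at most `(log p)^a`, as the generalised Riemann
hypothesis predicts for all `p`.  The exponent `40/a+ε` tends to zero as `a` grows, so that the result
applies to all but a negligible part of the members of thin families such as `n^2 + 1`.
-/

namespace Pool.Agent.Results.MP_321647_nt.LinnikGenerators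

open Finset NumberField
open scoped Classical

/-- The subgroup of the class group generated by the classes of the nonzero prime ideals of norm at
most `B`. -/
noncomputable def Gen (K : Type) [Field K] [NumberField K] (B : ℝ) : Subgroup (ClassGroup (𝓞 K)) :=
  Subgroup.closure {c | ∃ P : nonZeroDivisors (Ideal (𝓞 K)), (P : Ideal (𝓞 K)).IsPrime ∧
    ((Ideal.absNorm (P : Ideal (𝓞 K)) : ℕ) : ℝ) ≤ B ∧ ClassGroup.mk0 P = c}

/-- The property of the squarefree integer `d` in the theorem. -/
def Good (a : ℝ) (d : ℕ) : Prop :=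
  ∀ (K : Type) [Field K] [NumberField K], Module.finrank ℚ K = 2 → (∃ x : K, x ^ 2 = (d : K)) →
    (∀ c : ClassGroup (𝓞 K), c ^ 2 ∈ Gen K ((Real.log d) ^ a)) ∧
    (d.Prime ∨ Odd (Nat.card (ClassGroup (𝓞 K))) →
      Gen K ((Real.log d) ^ a) = ⊤ ∧
      (UniqueFactorizationMonoid (𝓞 K) ↔ ∀ P : Ideal (𝓞 K), P.IsPrime →
        ((Ideal.absNorm P : ℕ) : ℝ) ≤ (Real.log d) ^ a → P.IsPrincipal))

theorem good_of (a : ℝ) (d : ℕ) (h : Pool.Agent.L0h75.GN.GoodG a d) : Good a d := by
  intro K _ _ hK hx
  have h1 : ∀ c : ClassGroup (𝓞 K), c ^ 2 ∈ Gen K ((Real.log d) ^ a) := h K hK hx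
  refine ⟨h1, fun hd => ?_⟩
  have hodd : Odd (Nat.card (ClassGroup (𝓞 K))) := by
    rcases hd with hd | hd
    · exact Pool.Agent.L0h75.GN.odd_card hK hd hx
    · exact hd
  have htop : Gen K ((Real.log d) ^ a) = ⊤ := by
    rw [eq_top_iff]
    intro c _
    obtain ⟨k, hk⟩ := hodd
    have h2 : c = (c ^ (k + 1)) ^ 2 := by
      have h3 : c ^ Nat.card (ClassGroup (𝓞 K)) = 1 := pow_card_eq_one'
      calc c = c ^ Nat.card (ClassGroup (𝓞 K)) * c := by rw [h3, one_mul]
        _ = (c ^ (k + 1)) ^ 2 := by
          rw [hk, ← pow_succ, ← pow_mul]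
          congr 1
          ring
    rw [h2]
    exact h1 _
  refine ⟨htop, ?_, ?_⟩
  · intro hU P _ _
    have hP : IsPrincipalIdealRing (𝓞 K) :=
      IsPrincipalIdealRing.of_isDedekindDomain_of_uniqueFactorizationMonoid (𝓞 K)
    exact hP.principal P
  · intro hP
    have hbot : Gen K ((Real.log d) ^ a) = ⊥ := by
      rw [Gen, Subgroup.closure_eq_bot_iff]
      rintro c ⟨P, hp, hn, rfl⟩
      rw [Set.mem_singleton_iff, ClassGroup.mk0_eq_one_iff]
      exact hP _ hp hn
    have hall : ∀ c : ClassGroup (𝓞 K), c = 1 := by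
      intro c
      have h3 : c ∈ (⊥ : Subgroup (ClassGroup (𝓞 K))) := by
        rw [← hbot, htop]
        exact Subgroup.mem_top c
      exact Subgroup.mem_bot.1 h3
    have hpid : IsPrincipalIdealRing (𝓞 K) := by
      refine ⟨fun I => ?_⟩
      by_cases hI : I = ⊥
      · rw [hI]
        exact bot_isPrincipal
      · have h4 := hall (ClassGroup.mk0 ⟨I, mem_nonZeroDivisors_of_ne_zero hI⟩)
        rw [ClassGroup.mk0_eq_one_iff] at h4
        exact h4
    infer_instance

/-- For every `a ≥ 16` and `ε > 0` all but `O(X^(40/a+ε))` of the squarefree `d ≤ X` have the property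
`Good a d`. -/
theorem result : ∀ a ε : ℝ, 16 ≤ a → 0 < ε → ∃ C : ℝ, 0 < C ∧
    ∀ X : ℕ, (((Finset.Icc 2 X).filter (fun d => Squarefree d ∧ ¬ Good a d)).card : ℝ) ≤
      C * (X : ℝ) ^ (40 / a + ε) := by
  intro a ε ha hε
  obtain ⟨C, hC, h⟩ := Pool.Agent.L0h75.GN.mainG a ha ε hε
  refine ⟨C, hC, fun X => le_trans ?_ (h X)⟩
  have hsub : (Finset.Icc 2 X).filter (fun d => Squarefree d ∧ ¬ Good a d) ⊆
      (Finset.Icc 2 X).filter (fun d => Squarefree d ∧ ¬ Pool.Agent.L0h75.GN.GoodG a d) := by
    intro d hd
    rw [Finset.mem_filter] at hd ⊢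
    exact ⟨hd.1, hd.2.1, fun hg => hd.2.2 (good_of a d hg)⟩
  exact_mod_cast Finset.card_le_card hsub

end Pool.Agent.Results.MP_321647_nt.LinnikGenerators
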