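import Pool.Agent.L0h49.F.B2

/-!
# Unique factorisation and units with a Lucas number as irrational part

For `a ≥ 1` let `U n`, `V n` be the Lucas sequences `U 0 = 0`, `U 1 = 1`, `V 0 = 2`, `V 1 = a`,
both with the recursion `X (n + 2) = a * X (n + 1) + X n` (for `a = 1` the Fibonacci and the Lucas
numbers).  Let `1 ≤ a ≤ 30` and let `n` be odd.  Let `D` be the discriminant of a real quadratic
field whose ring of integers is a unique factorisation domain and suppose that
`T ^ 2 + 4 = D * U n ^ 2` with `T ≡ V n` modulo `U n ^ 2` (`T` may be negative).  Equivalently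
`D = U n ^ 2 * j ^ 2 + 2 * V n * j + a ^ 2 + 4` for some integer `j`.  Then `D` is one of twenty-six
explicit numbers.  If `U n` is a prime power or twice an odd prime power, no congruence for `T` is
needed.

There is no bound for `n` or for `D`: the continued fraction of `(1 + √D) / 2` has period `n` with
the symmetric part `a, a, …, a` for `j > 0`, so that arbitrarily long periods occur.

The method is that of Biró: for odd characters of conductor prime to `D` the value at `0` of the
zeta function of the principal class is computed in two ways.  The resulting congruences are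
studied outwards from the centre of the period, where everything is periodic in `n`.  The
library for palindromic periods and the tables of character sums are those of the files
`Pool/Agent/N911`, `Pool/Agent/H419R2` and `Pool/Agent/N156/EP`.
-/

namespace Pool.Agent.Results.MP_321647_nt.LucasUnits

/-- `0, 1, a, a ^ 2 + 1, …` -/
def lucU (a : ℕ) : ℕ → ℕ
  | 0 => 0
  | 1 => 1
  | n + 2 => a * lucU a (n + 1) + lucU a n

/-- `2, a, a ^ 2 + 2, …` -/
def lucV (a : ℕ) : ℕ → ℕ
  | 0 => 2
  | 1 => a
  | n + 2 => a * lucV a (n + 1) + lucV a n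

theorem lucU_eq (a n : ℕ) : lucU a n = Pool.Agent.L0h49.F.luc a n ∧
    lucU a (n + 1) = Pool.Agent.L0h49.F.luc a (n + 1) := by
  induction n with
  | zero => exact ⟨rfl, rfl⟩
  | succ n ih =>
    refine ⟨ih.2, ?_⟩
    change a * lucU a (n + 1) + lucU a n = a * Pool.Agent.L0h49.F.luc a (n + 1) +
      Pool.Agent.L0h49.F.luc a n
    rw [ih.1, ih.2]

theorem lucV_eq (a n : ℕ) : lucV a (n + 1) = a * lucU a (n + 1) + 2 * lucU a n ∧
    lucV a (n + 2) = a * lucU a (n + 2) + 2 * lucU a (n + 1) := by
  induction n with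
  | zero =>
    constructor
    · change a = a * 1 + 2 * 0
      ring
    · change a * a + 2 = a * (a * 1 + 0) + 2 * 1
      ring
  | succ n ih =>
    refine ⟨ih.2, ?_⟩
    change a * lucV a (n + 2) + lucV a (n + 1) = a * (a * lucU a (n + 2) + lucU a (n + 1)) +
      2 * lucU a (n + 2)
    have e : lucU a (n + 2) = a * lucU a (n + 1) + lucU a n := rfl
    rw [ih.1, ih.2, e]
    ring

theorem result (d : ℕ) (hd : Squarefree d) (hd1 : 1 < d)
    (K : Type*) [Field K] [NumberField K] (hK : Module.finrank ℚ K = 2)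
    (x : K) (hx : x ^ 2 = (d : K))
    (hufd : UniqueFactorizationMonoid (NumberField.RingOfIntegers K))
    (a n : ℕ) (ha1 : 1 ≤ a) (ha : a ≤ 30) (hn : Odd n)
    (D : ℕ) (hD : D = if d % 4 = 1 then d else 4 * d)
    (T : ℤ) (hT : T ^ 2 + 4 = D * (lucU a n : ℤ) ^ 2)
    (hmod : (lucU a n : ℤ) ^ 2 ∣ T - lucV a n ∨
      ∃ p k : ℕ, p.Prime ∧ p ≠ 2 ∧ (lucU a n = p ^ k ∨ lucU a n = 2 * p ^ k)) :
    d ∈ ({2, 5, 13, 17, 29, 37, 41, 53, 61, 101, 149, 157, 173, 197, 269, 293, 317, 461, 557, 677,
      773, 797, 941, 1013, 1877, 2477} : Finset ℕ) := by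
  have hcl : NumberField.classNumber K = 1 := by
    rw [NumberField.classNumber_eq_one_iff]
    exact IsPrincipalIdealRing.of_isDedekindDomain_of_uniqueFactorizationMonoid _
  obtain ⟨h, rfl⟩ := hn
  have e1 : lucU a (2 * h + 1) = Pool.Agent.L0h49.F.luc a (2 * h + 1) := (lucU_eq a (2 * h)).2
  have e2 : (lucV a (2 * h + 1) : ℤ) = Pool.Agent.L0h49.F.lv a h := by
    rw [(lucV_eq a (2 * h)).1, e1, (lucU_eq a (2 * h)).1]
    unfold Pool.Agent.L0h49.F.lv
    push_cast
    ring
  rw [e1] at hT hmod
  rw [e2] at hmod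
  have hr := Pool.Agent.L0h49.F.final hd hd1 hK hx hcl ha1 ha hD hT hmod
  rcases hr with rfl | hr
  · simp
  · unfold Pool.Agent.L0h49.F.ListF at hr
    simp only [List.mem_cons, List.not_mem_nil, or_false] at hr
    simp only [Finset.mem_insert, Finset.mem_singleton]
    exact Or.inr hr

end Pool.Agent.Results.MP_321647_nt.LucasUnits
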