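import Pool.Agent.L0h49.P.Z1
import Pool.Agent.L0h49.H.Wr

/-!
# Real quadratic fields with unique factorisation and short continued fraction period

For squarefree `d > 1` let `omega d` be the standard generator of the ring of integers of
`ℚ(√d)`, let `perLen d` be the length of the period of its simple continued fraction, and let
`a₁ = ⌊nextQ (omega d)⌋`, `a₂ = ⌊nextQ (nextQ (omega d))⌋` be the first two partial quotients after
the integer part.  If the ring of integers is a unique factorisation domain and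
`1 ≤ perLen d ≤ 5`, or `d ≢ 1 (mod 4)` and `1 ≤ perLen d ≤ 9`, then `d` is one of seventy-eight
explicit numbers, unless `d ≡ 1 (mod 4)`, `perLen d = 4` and the pair `(a₁, a₂)` is congruent to
`(-2, 1)` or `(2, -1)` modulo `3838380 = 4 * 3 * 5 * 7 * 13 * 19 * 37`.  For `d ≢ 1 (mod 4)` there
is no exception.
-/

namespace Pool.Agent.Results.MP_321647_nt.PeriodAtMostFive

/-- The next complete quotient of the simple continued fraction of a real number. -/
noncomputable def nextQ (x : ℝ) : ℝ := (Int.fract x)⁻¹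

/-- The standard generator of the ring of integers of `ℚ(√d)`. -/
noncomputable def omega (d : ℕ) : ℝ := if d % 4 = 1 then (1 + √(d : ℝ)) / 2 else √(d : ℝ)

/-- The period length of the simple continued fraction of `omega d`: the least `l ≥ 1` such that
the complete quotients with indices `l + 1` and `1` agree (and `0` if there were none). -/
noncomputable def perLen (d : ℕ) : ℕ :=
  sInf {l : ℕ | 0 < l ∧ nextQ^[l + 1] (omega d) = nextQ (omega d)}

theorem result (d : ℕ) (hd : Squarefree d) (hd1 : 1 < d)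
    (K : Type*) [Field K] [NumberField K] (hK : Module.finrank ℚ K = 2)
    (x : K) (hx : x ^ 2 = (d : K))
    (hufd : UniqueFactorizationMonoid (NumberField.RingOfIntegers K))
    (hpos : 0 < perLen d) (hle : perLen d ≤ 5 ∨ (d % 4 ≠ 1 ∧ perLen d ≤ 9)) (a₁ a₂ : ℤ)
    (h₁ : a₁ = ⌊nextQ (omega d)⌋) (h₂ : a₂ = ⌊nextQ (nextQ (omega d))⌋) :
    d ∈ ({2, 3, 5, 6, 7, 11, 13, 14, 17, 19, 21, 22, 23, 29, 31, 33, 37, 38, 41, 47, 53, 59, 61, 62,
      69, 71, 77, 83, 93, 101, 107, 131, 133, 141, 149, 157, 158, 167, 173, 181, 197, 206, 213,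
      227, 237, 269, 278, 293, 317, 383, 397, 398, 413, 437, 453, 461, 503, 557, 573, 677, 717,
      743, 773, 941, 983, 1013, 1077, 1133, 1253, 1293, 1397, 1757, 1877, 2477, 2693, 3053, 3533,
      4253} : Finset ℕ) ∨
    (d % 4 = 1 ∧ perLen d = 4 ∧
      ((3838380 ∣ a₁ + 2 ∧ 3838380 ∣ a₂ - 1) ∨ (3838380 ∣ a₁ - 2 ∧ 3838380 ∣ a₂ + 1))) := by
  have hcl : NumberField.classNumber K = 1 := by
    rw [NumberField.classNumber_eq_one_iff]
    exact IsPrincipalIdealRing.of_isDedekindDomain_of_uniqueFactorizationMonoid _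
  have key : ∀ y ∈ 2 :: (Pool.Agent.N911.Fin29 ++ (Pool.Agent.L0h49.P.Fin21 ++
      (Pool.Agent.L0h49.P.Ev13 ++ Pool.Agent.L0h49.H.EvL))), y ∈ ({2, 3, 5, 6, 7, 11, 13, 14, 17, 19, 21, 22, 23, 29, 31, 33, 37, 38, 41, 47, 53, 59, 61, 62,
      69, 71, 77, 83, 93, 101, 107, 131, 133, 141, 149, 157, 158, 167, 173, 181, 197, 206, 213,
      227, 237, 269, 278, 293, 317, 383, 397, 398, 413, 437, 453, 461, 503, 557, 573, 677, 717,
      743, 773, 941, 983, 1013, 1077, 1133, 1253, 1293, 1397, 1757, 1877, 2477, 2693, 3053, 3533,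
      4253} : Finset ℕ) := by decide +kernel
  have hne : {l : ℕ | 0 < l ∧ nextQ^[l + 1] (omega d) = nextQ (omega d)}.Nonempty := by
    by_contra hc
    rw [Set.not_nonempty_iff_eq_empty] at hc
    have : perLen d = 0 := by
      unfold perLen
      rw [hc]
      exact Nat.sInf_empty
    omega
  have hm := Nat.sInf_mem hne
  by_cases h5 : perLen d ≤ 5
  swap
  · have h9 : d % 4 ≠ 1 ∧ perLen d ≤ 9 := hle.resolve_left h5
    have h4 : d % 4 = 2 ∨ d % 4 = 3 := by
      have := Pool.Agent.L0h49.P.not0 hd
      omega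
    left
    refine key d ?_
    rcases Nat.lt_or_ge 3 d with hd3 | hd3
    swap
    · have : d = 2 ∨ d = 3 := by omega
      rcases this with h | h <;> rw [h] <;> decide +kernel
    rcases Nat.mod_two_eq_zero_or_one (perLen d) with h2 | h2
    · refine List.mem_cons_of_mem _ (List.mem_append_right _ (List.mem_append_right _
        (List.mem_append_right _ ?_)))
      obtain ⟨k, hk, hk2⟩ : ∃ k, (k = 3 ∨ k = 4) ∧ perLen d = 2 * k :=
        ⟨perLen d / 2, by omega, by omega⟩
      have hper : nextQ^[perLen d + 1] (omega d) = nextQ (omega d) := hm.2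
      have hmin : ∀ j : ℕ, 0 < j → j < perLen d → nextQ^[j + 1] (omega d) ≠ nextQ (omega d) :=
        fun j h1 h2 h3 => Nat.notMem_of_lt_sInf h2 ⟨h1, h3⟩
      rw [hk2] at hper hmin
      exact Pool.Agent.L0h49.H.long_period hd h4 hd3 hK hx hcl hk hper hmin
    · have h := Pool.Agent.L0h49.H.odd_period hd h4 hK hx hcl h2 hm.2
      rw [h]; exact List.mem_cons_self
  by_cases hodd : Odd (perLen d)
  · left
    refine key d ?_
    rcases Pool.Agent.N911.classification hd hd1 hK hx hcl hodd h5 with h | h
    · rw [h]; exact List.mem_cons_self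
    · exact List.mem_cons_of_mem _ (List.mem_append_left _ h)
  · have hl : perLen d = 2 ∨ perLen d = 4 := by
      rcases Nat.even_or_odd (perLen d) with h | h
      · obtain ⟨k, hk⟩ := h
        omega
      · exact (hodd h).elim
    have h := Pool.Agent.L0h49.P.even_period hd hd1 hK hx hcl hl hm.2
    rcases h with h | h | h | h | ⟨h4, h0, hX⟩
    · left
      refine key d ?_
      rw [h]; exact List.mem_cons_self
    · exact Or.inl (key d (List.mem_cons_of_mem _ (List.mem_append_left _ h)))
    · exact Or.inl (key d (List.mem_cons_of_mem _ (List.mem_append_right _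
        (List.mem_append_left _ h))))
    · exact Or.inl (key d (List.mem_cons_of_mem _ (List.mem_append_right _
        (List.mem_append_right _ (List.mem_append_left _ h)))))
    · right
      refine ⟨h4, h0, ?_⟩
      change ¬ Pool.Agent.L0h49.P.NX ⌊nextQ (omega d)⌋ ⌊nextQ (nextQ (omega d))⌋ at hX
      rw [← h₁, ← h₂] at hX
      unfold Pool.Agent.L0h49.P.NX Pool.Agent.L0h49.P.XX at hX
      by_contra hc
      apply hX
      refine ⟨fun h => hc (Or.inl h), fun h => hc (Or.inr ?_)⟩
      refine ⟨?_, ?_⟩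
      · have := h.1
        rw [show -a₁ + 2 = -(a₁ - 2) by ring, dvd_neg] at this
        exact this
      · have := h.2
        rw [show -a₂ - 1 = -(a₂ + 1) by ring, dvd_neg] at this
        exact this

end Pool.Agent.Results.MP_321647_nt.PeriodAtMostFive
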